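import Pool.Agent.Helper71.PR.Goals
import Pool.Agent.Helper71.PR.Basic

/-!
# Project PR, packet A1: some nontrivial superdiagonal transvection
-/

set_option autoImplicit false

namespace Pool.Agent.Helper46.PR

open Matrix Filter Topology
open Pool.Agent.Helper71.PR

theorem coef {n : ℕ} (r : ℕ) (A g k : Mt n) (I K : JS r n) :
    (fun I' => cp r A I I') ⬝ᵥ (cp r g *ᵥ (fun K' => cp r k K' K)) = cp r (A * g * k) I K := by
  rw [Matrix.mul_assoc, cp_mul, cp_mul]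
  rfl

theorem row_ne {n : ℕ} (r : ℕ) (A : Mt n) (hA : A.det ≠ 0) (I : JS r n) :
    (fun I' => cp r A I I') ≠ 0 := by
  intro h
  exact cp_det_ne r A hA (Matrix.det_eq_zero_of_row_eq_zero I fun j => congrFun h j)

theorem col_ne {n : ℕ} (r : ℕ) (A : Mt n) (hA : A.det ≠ 0) (K : JS r n) :
    (fun K' => cp r A K' K) ≠ 0 := by
  intro h
  exact cp_det_ne r A hA (Matrix.det_eq_zero_of_column_eq_zero K fun j => congrFun h j)

theorem a1 (h1 : G_N) (h2 : G_LDU1) (h3 : G_STR) : G_A1 := by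
  intro n hn Γ S hZ hA k hk i j hij
  have hkd : k.det ≠ 0 := hA.det k hk
  have hku : IsUnit k.det := isUnit_iff_ne_zero.2 hkd
  have hkid : (k⁻¹).det ≠ 0 := by
    rw [Matrix.det_nonsing_inv, Ring.inverse_eq_inv']
    exact inv_ne_zero hkd
  have hij' : i ≤ j := by
    show (i : ℕ) ≤ j
    omega
  -- the coefficients
  let r : Fin n ⊕ Unit → ℕ := Sum.elim (fun a => (a : ℕ) + 1) (fun _ => (i : ℕ) + 1)
  let II : ∀ s : Fin n ⊕ Unit, JS (r s) n := fun s => match s with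
    | Sum.inl a => bd a a le_rfl
    | Sum.inr _ => bd i i le_rfl
  let KK : ∀ s : Fin n ⊕ Unit, JS (r s) n := fun s => match s with
    | Sum.inl a => bd a a le_rfl
    | Sum.inr _ => bd i j hij'
  obtain ⟨γ, hγ, hne⟩ := h1 n hn Γ hZ (Fin n ⊕ Unit) r
    (fun s I' => cp (r s) k⁻¹ (II s) I') (fun s K' => cp (r s) k K' (KK s))
    (fun s => row_ne (r s) k⁻¹ hkid (II s)) (fun s => col_ne (r s) k hkd (KK s))
  have hne' : ∀ s, cp (r s) (k⁻¹ * γ.1 * k) (II s) (KK s) ≠ 0 := fun s => by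
    have h := hne s
    rwa [coef] at h
  have hY : ∀ a : Fin n, ld a (k⁻¹ * γ.1 * k) ≠ 0 := fun a => hne' (Sum.inl a)
  have hU0 : cp ((i : ℕ) + 1) (k⁻¹ * γ.1 * k) (bd i i le_rfl) (bd i j hij') ≠ 0 := hne' (Sum.inr ())
  obtain ⟨L, U, d, hL, hU, hd, hLDU, -, hUf, -⟩ := h2 n (k⁻¹ * γ.1 * k) hY
  have hUij : U i j ≠ 0 := by
    intro h
    have h5 := hUf j i hij'
    rw [h, zero_mul] at h5
    exact hU0 h5.symm
  have hk1 : γ.1 * k ∈ S := hA.inv k hk γ hγ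
  have hl : LowT (L * diagonal d) := hL.lowT.mul (lowT_diagonal d)
  have hldet : (L * diagonal d).det ≠ 0 := by
    rw [Matrix.det_mul, hL.det, one_mul, Matrix.det_diagonal]
    exact Finset.prod_ne_zero_iff.2 fun a _ => hd a
  have heq : γ.1 * k * U⁻¹ = k * (L * diagonal d) := by
    have e1 : γ.1 * k = k * (k⁻¹ * γ.1 * k) := by
      rw [Matrix.mul_assoc k⁻¹, ← Matrix.mul_assoc k, Matrix.mul_nonsing_inv k hku, Matrix.one_mul]
    rw [e1, hLDU, Matrix.mul_assoc k, Matrix.mul_assoc (L * diagonal d),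
      Matrix.mul_nonsing_inv U hU.isUnit, Matrix.mul_one]
  have hs3 : γ.1 * k * U⁻¹ ∈ S := hA.s3 _ hk1 k hk U⁻¹ _ hU.inv hl hldet heq
  have hstr := h3 n Γ S hA (γ.1 * k) hk1 U⁻¹ hU.inv hs3 i j hij
  refine ⟨U⁻¹ i j, ?_, ?_⟩
  · rw [hU.inv_super i j hij]
    exact neg_ne_zero.2 hUij
  · have h6 := hA.inv _ hstr γ⁻¹ (Γ.inv_mem hγ)
    have e2 : (γ⁻¹).1 * γ.1 = 1 := by
      have : (γ⁻¹ * γ).1 = (1 : SLn n).1 := by rw [inv_mul_cancel]
      rwa [Matrix.SpecialLinearGroup.coe_mul, Matrix.SpecialLinearGroup.coe_one] at this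
    rwa [← Matrix.mul_assoc, ← Matrix.mul_assoc, e2, Matrix.one_mul] at h6

end Pool.Agent.Helper46.PR
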